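import Pool.Agent.Lib.MP_72e2e6_nt.P3.U.All
import Pool.Agent.Lib.MP_72e2e6_nt.P3.U.ToZ

/-!
# One hundred percent of the cyclic extensions of degree `p` in characteristic `p`

Let `p` be a prime number, `K` a global function field of characteristic `p` and `E` an ordinary
elliptic curve over `K` (a Weierstrass curve with `Δ ≠ 0` and a point of order `p` over the algebraic
closure). For `D ∈ K` let `L = K(θ)`, `θ ^ p - θ = D`, and let `A` be the kernel of the trace
`Res_{L/K} E → E` from the Weil restriction, an abelian variety of dimension `p - 1` over `K` (for
`p = 2` the quadratic twist of `E`). For a finite set `S` of places and bounds `B v`, `v ∈ S`, let `Tw` be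
the finite set of the functions `D ∈ K` which are regular outside `S` and have the absolute value at
most `B v` at `v ∈ S`.

THEOREM. There is a finite set `S₀` of places such that for every finite set `S ⊇ S₀` of places and
every `ε > 0` there is `B₀` such that for all `B v ≥ B₀`, for at least `(1 - ε) #Tw` elements `D` of `Tw`:
`[L : K] = p`, the group `A(K)` is finite, the `p`-primary part of the Tate-Shafarevich group of `A` over
`K` is finite, and `E(K)` has finite index in `E(L)`.

All groups are the literal ones: the points are those of Mathlib, `InSha` is the kernel of the
localization maps (to all completions of `K` at nontrivial absolute values) on locally constant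
crossed homomorphisms of the absolute Galois group of `K` with values in `A(K^s)`, and `ShaPFin` says
that the classes of `p`-power order in this kernel are finite in number.

The proof is self-contained. Let `[p ^ k] = V ^ k F ^ k` be the decomposition into the Frobenius isogeny
and its dual. The Selmer groups of `V ^ k` and of `F ^ k` of `A` are bounded in terms of the number of the
pairs `(c, a)`, `c` a crossed homomorphism of the Galois group `G_S` with values in
`Λ = Z[ζ] / (p ^ (k + 1))` (twisted by the character of `L/K` and of the torsion of the Frobenius
twists of `E`) whose restriction at every `v ∈ S` is the coboundary of `a v` (for `F ^ k` by an explicit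
reciprocity law for crossed homomorphisms modulo `p ^ k`-th powers of `K^s`). The average of this number
over the `D ∈ Tw` is computed by iterated applications of the Cauchy-Schwarz inequality in `D` (van der
Corput's method); the derivatives of the defining equations in `D` are computed with group rings, and
they are nondegenerate. It follows that the Selmer group of `p ^ k` has less than `p ^ k` elements for a
proportion of the `D` which tends to one as `k → ∞`; then `p ^ (k - 1)` kills the `p`-primary part of the
Tate-Shafarevich group and `p ^ (k - 1) A(K) = p ^ k A(K)`.
-/

namespace Pool.Agent.Results.MP_72e2e6_nt.CyclicExtensions

/-- For every prime `p`, every global function field `K` of characteristic `p` and every ordinary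
elliptic curve `E` over `K`: for one hundred percent of the cyclic extensions `L` of `K` of degree `p` the
new part of `E` over `L` has finitely many rational points and a finite `p`-primary part of the
Tate-Shafarevich group, and `E(K)` has finite index in `E(L)`. -/
theorem result : Pool.Agent.MP72Z.T3 := Pool.Agent.MP72P.toZ Pool.Agent.MP72A.aP_UniT

end Pool.Agent.Results.MP_72e2e6_nt.CyclicExtensions
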