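import Pool.Agent.Lib.MP_72e2e6_nt.Sm.AllN

/-!
# One hundred percent of the tame quadratic twists of an elliptic curve over `F(t)`, in the natural density

Let `F` be a finite field with `q ≡ 1` modulo four elements, `K = F(t)`, `a 0, a 1, a 2 ∈ F[t]` distinct
polynomials such that no `(a i - a j) (a i - a l)`, `{i, j, l} = {0, 1, 2}`, is a constant times a square:
the elliptic curve `E : y ^ 2 = (x - a 0) (x - a 1) (x - a 2)` has full rational two-torsion and no cyclic
subgroup of order four defined over `F̄(t)`. For `D ∈ F[t]`, `D ≠ 0` let `E_D = twd a D` be the quadratic
twist `y ^ 2 = (x - D a 0) (x - D a 1) (x - D a 2)`. A squarefree `D` (with an arbitrary leading coefficient) is tame
(`Tam a D`) if for every irreducible `P` dividing `∏ (a i - a j)` and every `i` one of the two valuations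
`v_P (D (a i - a j))`, `j ≠ i`, is odd (so `E_D` acquires good reduction only over ramified extensions at
`P`); `tms a n` is the set of the tame squarefree `D` of degree `n`.

THEOREM. (1) A positive proportion `c q ^ n` of the `D` of degree `n` is squarefree and tame. (2) For every
`ε > 0` and all large `n` with `n + max deg (a i - a j)` odd (tameness at infinity): for at least
`(1 - ε) #(tms a n)` of the `D ∈ tms a n` the group `E_D(K)` is finite and the `2`-primary part of the
Tate-Shafarevich group of `E_D` over `K` is finite.

All groups are the literal ones: `(twd a D).toAffine.Point` is the Mordell-Weil group of Mathlib, and
`ShaTwoFin` (`W2/Fin/Defs.lean`) says that the classes of `2`-power order in the kernel of the localization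
maps (to all completions of `K` at nontrivial absolute values) on locally constant crossed
homomorphisms of the absolute Galois group of `K` with values in `E_D(K^s)` are finite in number.

The proof is self-contained and follows the strategy of Smith. (1) Anatomy of polynomials: most `D`
have about `log n` prime factors, few of small degree and many of large degree; the small prime factors are put
into the fixed part, and all estimates are uniform in the fixed part. (2) Level one: the mean value of the order
of the `2`-Selmer group is bounded, and its elements have many indices with every given pattern at the
ramified places (character sums over primes; explicit Weil bound). (3) From level `k` to level `k + 1`: on a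
cube of dimension `k + 1` in the space of the tuples of primes the alternating sum of the Cassels-Tate
pairings of level `k` is the value at a Frobenius element of a function on the Galois group of the maximal
`2`-extension of `K`, which is unramified outside the places of the cube; this function is
constructed from the alternating sums of the cocycles over the faces. (4) An effective version of
Stepanov's method (with Riemann's inequality in towers of quadratic extensions, proved for valuations)
gives an upper bound for the number of the primes of degree `m` which split completely in a field, with an
explicit dependence on the degree and the ramification; the Kővári-Sós-Turán theorem with explicit
constants gives many cubes, and the proportion of the elements which lift from level `k` to level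
`k + 1` is at most `15 / 16`, unless the Selmer group is minimal.
-/

namespace Pool.Agent.Results.MP_72e2e6_nt.NaturalDensity

/-- One hundred percent (in the natural density) of the tame squarefree quadratic twists of an elliptic
curve over `F(t)` with full rational two-torsion and no geometric cyclic subgroup of order four have
finitely many rational points and a finite `2`-primary part of the Tate-Shafarevich group. -/
theorem result : Pool.Agent.MP72T.ThmN := Pool.Agent.MP72T.aThmN

end Pool.Agent.Results.MP_72e2e6_nt.NaturalDensity
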