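import Pool.Agent.Lib.MP_72e2e6_nt.Sm.All

/-!
# One hundred percent of the tame quadratic twists of an elliptic curve over `F(t)`

Let `F` be a finite field with `q ≡ 1` modulo four elements, `K = F(t)`, `a 0, a 1, a 2 ∈ F[t]` distinct
polynomials such that no `(a i - a j) (a i - a l)`, `{i, j, l} = {0, 1, 2}`, is a constant times a square:
the elliptic curve `E : y ^ 2 = (x - a 0) (x - a 1) (x - a 2)` has full rational two-torsion and no cyclic
subgroup of order four defined over `F̄(t)`. For `D ∈ F[t]`, `D ≠ 0` let `E_D = twd a D` be the quadratic
twist `y ^ 2 = (x - D a 0) (x - D a 1) (x - D a 2)`.

THEOREM. There are monic squarefree tame `d` (`Tam a d`). For every tame `d` and every `ε > 0` there is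
`r₀` such that for all `r ≥ r₀` there is `N₁`, for all `n' 0, .., n' (r - 1) ≥ N₁` there is `N₂`, such that for all
`m ≥ N₂` with `deg d + ∑ n' i + m + max deg (a i - a j)` odd: for at least `(1 - ε)` of all `(r + 1)`-tuples `R`
of monic irreducible polynomials of the degrees `n' 0, .., n' (r - 1), m` the group `E_D(K)`,
`D = d ∏ R k`, is finite and the `2`-primary part of the Tate-Shafarevich group of `E_D` over `K` is finite.

All groups are the literal ones: `(twd a D).toAffine.Point` is the Mordell-Weil group of Mathlib, and
`ShaTwoFin` (`W2/Fin/Defs.lean`) says that the classes of `2`-power order in the kernel of the localization
maps (to all completions of `K` at nontrivial absolute values) on locally constant crossed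
homomorphisms of the absolute Galois group of `K` with values in `E_D(K^s)` are finite in number.

The proof is self-contained and follows the strategy of Smith. It has three parts. (1) Level one: the
mean value of the order of the `2`-Selmer group is bounded, and its elements have many indices with
every given pattern at the ramified places (character sums over primes; Chebotarev's theorem for
quadratic characters is elementary over `F[t]`). (2) From level `k` to level `k + 1`: on a cube of
dimension `k + 1` in the space of the tuples the alternating sum of the Cassels-Tate pairings
of level `k` is the value at a Frobenius element of a function on the Galois group of the maximal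
`2`-extension of `K`, which is unramified outside the places of the cube; this function is
constructed from the alternating sums of the cocycles over the faces. (3) Stepanov's method gives an
upper bound for the number of the primes of degree `m` which split completely in a field (only the upper
bound of Chebotarev's theorem, up to the factor two, is used), and an entropy argument on grids of
primes shows that the proportion of the elements which lift from level `k` to level `k + 1` is at most
`15 / 16`, unless the Selmer group is minimal.
-/

namespace Pool.Agent.Results.MP_72e2e6_nt.TameTwists

/-- One hundred percent of the tame quadratic twists `E_D`, `D = d ∏ R k`, of an elliptic curve over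
`F(t)` with full rational two-torsion and no geometric cyclic subgroup of order four have finitely
many rational points and a finite `2`-primary part of the Tate-Shafarevich group. -/
theorem result : Pool.Agent.MP72T.Thm := Pool.Agent.MP72T.aThm

end Pool.Agent.Results.MP_72e2e6_nt.TameTwists
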